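import Pool.Agent.H23.TF.Main

set_option autoImplicit false

/-!
# `X~ = 3X - 2K` is not weakly superadditive in neutral Thomas-Fermi theory

The definitions are in `Pool.Agent.H23.TF.Defs` (section `The objects of the problem`): `V`, `U`, `xi`, `Density`,
`IsMinimiser`, `K`, `Ki`, `X`, `Xt`, `WSA`.

Idea of the proof: `Xt = 7 K - 3 ∑ z_i K_i` does not contain the nuclear repulsion, so it is continuous when nuclei
merge. Weak superadditivity for the nuclei `a, a+c, b, b+c`, `c → 0`, would give superadditivity for the two nuclei
`a, b`; but the value of `Xt` for two equal nuclei of charge `t` stays bounded as `t → ∞`, because of the universal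
screening of Thomas-Fermi atoms.
-/

namespace Pool.Agent.Results.MP_f2f621_mp.NotWeaklySuperadditive

open MeasureTheory
open Pool.Agent.H23.TF

/-- The first part says that the objects of the question are well defined: the minimiser exists and is unique a.e. for
all `z ≥ 0`, and `K` has the partial derivatives used in `X` (where `z_i = 0` the term `z_i K_i` is zero). The second
part: for all distinct points `a, b` and all small `c ≠ 0` the function `X~` of the four nuclei `a, a+c, b, b+c` is not
weakly superadditive. -/
theorem result :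
    (∀ (k : ℕ) (R : Fin k → E3) (z : Fin k → ℝ), (∀ i, 0 ≤ z i) →
      (∃ ρ, IsMinimiser R z ρ ∧ ∀ σ, IsMinimiser R z σ → σ =ᵐ[volume] ρ) ∧
      ∀ i, 0 < z i → DifferentiableAt ℝ (fun t => K R (Function.update z i t)) (z i)) ∧
    ∀ a b : E3, a ≠ b → ∃ η : ℝ, 0 < η ∧ ∀ c : E3, c ≠ 0 → ‖c‖ < η →
      Function.Injective (![a, a + c, b, b + c] : Fin 4 → E3) ∧
      ¬ WSA (Xt ![a, a + c, b, b + c]) :=
  ⟨fun _ _ _ hz => ⟨⟨_, isMinimiser_sol hz, fun _ h => isMinimiser_unique hz h⟩,
    fun _ hi => differentiableAt_update hz hi⟩, fun _ _ hab => main_fail hab⟩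

end Pool.Agent.Results.MP_f2f621_mp.NotWeaklySuperadditive
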